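import Mathlib

set_option autoImplicit false

namespace Pool.Agent.Helper555.JDP

open scoped BigOperators

/-- A valuation on bundles of the item types `Fin m`. -/
abbrev Valuation (m : ℕ) : Type := Finset (Fin m) → ℝ

/-- An allocation gives a bundle of distinct items to each of the `n` agents. -/
abbrev Allocation (n m : ℕ) : Type := Fin n → Finset (Fin m)

/-- The demand set `D(p)`: the bundles maximising `v S - ∑ j ∈ S, p j`. -/
def demand {m : ℕ} (v : Valuation m) (p : Fin m → ℝ) : Set (Finset (Fin m)) :=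
  {S | ∀ T : Finset (Fin m), v T - ∑ j ∈ T, p j ≤ v S - ∑ j ∈ S, p j}

/-- Gross substitutes (Kelso-Crawford) valuations with values in `[0,1]`. -/
def GrossSubstitutes (m : ℕ) : Set (Valuation m) :=
  {v | (∀ S, 0 ≤ v S ∧ v S ≤ 1) ∧
    ∀ p p' : Fin m → ℝ, (∀ j, p j ≤ p' j) → ∀ S ∈ demand v p,
      ∃ T ∈ demand v p', ∀ j ∈ S, p' j = p j → j ∈ T}

/-- Unit-demand valuations with values in `[0,1]` (matching instances). -/
def UnitDemand (m : ℕ) : Set (Valuation m) :=
  {v | (∀ S, 0 ≤ v S ∧ v S ≤ 1) ∧ v ∅ = 0 ∧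
    ∀ S : Finset (Fin m), S.Nonempty →
      IsGreatest ((fun j => v {j}) '' (S : Set (Fin m))) (v S)}

/-- Every item `j` is in at most `sup j` bundles. -/
def Feasible {n m : ℕ} (sup : Fin m → ℕ) (ω : Allocation n m) : Prop :=
  ∀ j, (Finset.univ.filter fun i => j ∈ ω i).card ≤ sup j

/-- Social welfare. -/
def welfare {n m : ℕ} (v : Fin n → Valuation m) (ω : Allocation n m) : ℝ :=
  ∑ i, v i (ω i)

/-- The largest welfare of a feasible allocation. -/
noncomputable def OPT {n m : ℕ} (sup : Fin m → ℕ) (v : Fin n → Valuation m) : ℝ :=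
  sSup {w | ∃ ω : Allocation n m, Feasible sup ω ∧ welfare v ω = w}

/-- The probability of the event `E` under the distribution `μ`. -/
noncomputable def Pr {Ω : Type} (μ : PMF Ω) (E : Set Ω) : ℝ := (μ.toOuterMeasure E).toReal

/-- `ε`-joint differential privacy on profiles from the class `V`: for every agent `i`, replacing
her valuation changes the probability of any event about the bundles of the others by at most a
factor `exp ε`. -/
def JointlyPrivate {n m : ℕ} (V : Set (Valuation m)) (ε : ℝ)
    (M : (Fin n → Valuation m) → PMF (Allocation n m)) : Prop :=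
  ∀ (i : Fin n) (v : Fin n → Valuation m) (w : Valuation m), (∀ k, v k ∈ V) → w ∈ V →
    ∀ S : Set ({k : Fin n // k ≠ i} → Finset (Fin m)),
      Pr (M v) {ω | (fun k : {k : Fin n // k ≠ i} => ω k) ∈ S} ≤
        Real.exp ε *
          Pr (M (Function.update v i w)) {ω | (fun k : {k : Fin n // k ≠ i} => ω k) ∈ S}

/-- Supply `s` suffices: some mechanism (it knows the supplies `sup`) is `ε`-jointly private, always
outputs a feasible allocation, and with probability at least `1 - β` has welfare at least
`OPT - α n`, on every instance with valuations in `V` and all supplies at least `s`. -/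
def Suffices (V : ∀ m : ℕ, Set (Valuation m)) (n m : ℕ) (ε α β : ℝ) (s : ℕ) : Prop :=
  ∃ M : (Fin m → ℕ) → (Fin n → Valuation m) → PMF (Allocation n m),
    ∀ sup : Fin m → ℕ, (∀ j, s ≤ sup j) →
      JointlyPrivate (V m) ε (M sup) ∧
      ∀ v : Fin n → Valuation m, (∀ i, v i ∈ V m) →
        (∀ ω ∈ (M sup v).support, Feasible sup ω) ∧
        1 - β ≤ Pr (M sup v) {ω | OPT sup v - α * n ≤ welfare v ω}

/-- The least sufficient supply `s*(n, m; ε, α, β)`. -/
noncomputable def sStar (V : ∀ m : ℕ, Set (Valuation m)) (n m : ℕ) (ε α β : ℝ) : ℕ :=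
  sInf {s | Suffices V n m ε α β s}

/-- The weaker requirement in which feasibility itself may fail, as long as the output is both
feasible and of welfare at least `OPT - α n` with probability at least `1 - β`. -/
def WeaklySuffices (V : ∀ m : ℕ, Set (Valuation m)) (n m : ℕ) (ε α β : ℝ) (s : ℕ) : Prop :=
  ∃ M : (Fin m → ℕ) → (Fin n → Valuation m) → PMF (Allocation n m),
    ∀ sup : Fin m → ℕ, (∀ j, s ≤ sup j) →
      JointlyPrivate (V m) ε (M sup) ∧
      ∀ v : Fin n → Valuation m, (∀ i, v i ∈ V m) →
        1 - β ≤ Pr (M sup v) {ω | Feasible sup ω ∧ OPT sup v - α * n ≤ welfare v ω}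

/-- The least supply for the weaker requirement; it is at most `sStar`. -/
noncomputable def sStarWeak (V : ∀ m : ℕ, Set (Valuation m)) (n m : ℕ) (ε α β : ℝ) : ℕ :=
  sInf {s | WeaklySuffices V n m ε α β s}

end Pool.Agent.Helper555.JDP
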