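import Mathlib
import Pool.Agent.Helper555.JDPDefs

set_option autoImplicit false

namespace Pool.Agent.Helper555.JDP

open scoped BigOperators
open Classical

section Prob

variable {Ω : Type} [Fintype Ω]

theorem Pr_eq (μ : PMF Ω) (E : Set Ω) : Pr μ E = ∑ ω, if ω ∈ E then (μ ω).toReal else 0 := by
  unfold Pr
  rw [PMF.toOuterMeasure_apply_fintype, ENNReal.toReal_sum]
  · refine Finset.sum_congr rfl fun ω _ => ?_
    by_cases h : ω ∈ E
    · simp [h]
    · simp [h]
  · intro ω _
    by_cases h : ω ∈ E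
    · simp [h, PMF.apply_ne_top]
    · simp [h]

theorem sum_toReal (μ : PMF Ω) : ∑ ω, (μ ω).toReal = 1 := by
  rw [← ENNReal.toReal_sum (fun ω _ => PMF.apply_ne_top μ ω)]
  have h := μ.tsum_coe
  rw [tsum_fintype] at h
  rw [h]; simp

theorem Pr_nonneg (μ : PMF Ω) (E : Set Ω) : 0 ≤ Pr μ E := ENNReal.toReal_nonneg

theorem Pr_mono (μ : PMF Ω) {E F : Set Ω} (h : E ⊆ F) : Pr μ E ≤ Pr μ F := by
  rw [Pr_eq, Pr_eq]
  refine Finset.sum_le_sum fun ω _ => ?_
  by_cases h1 : ω ∈ E
  · simp [h1, h h1]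
  · by_cases h2 : ω ∈ F <;> simp [h1, h2]

theorem Pr_le_one (μ : PMF Ω) (E : Set Ω) : Pr μ E ≤ 1 := by
  rw [Pr_eq, ← sum_toReal μ]
  refine Finset.sum_le_sum fun ω _ => ?_
  by_cases h1 : ω ∈ E <;> simp [h1]

theorem Pr_compl (μ : PMF Ω) (E : Set Ω) : Pr μ Eᶜ = 1 - Pr μ E := by
  rw [Pr_eq, Pr_eq, ← sum_toReal μ, ← Finset.sum_sub_distrib]
  refine Finset.sum_congr rfl fun ω _ => ?_
  by_cases h1 : ω ∈ E <;> simp [h1]

theorem sum_Pr {κ : Type} (F : Finset κ) (μ : PMF Ω) (E : κ → Set Ω) :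
    ∑ S ∈ F, Pr μ (E S) = ∑ ω, (μ ω).toReal * ((F.filter fun S => ω ∈ E S).card : ℝ) := by
  simp_rw [Pr_eq]
  rw [Finset.sum_comm]
  refine Finset.sum_congr rfl fun ω _ => ?_
  rw [← Finset.sum_filter, Finset.sum_const, nsmul_eq_mul, mul_comm]

end Prob

theorem group_privacy {n m : ℕ} {V : Set (Valuation m)} {ε : ℝ}
    {M : (Fin n → Valuation m) → PMF (Allocation n m)} (hM : JointlyPrivate V ε M)
    (G : Finset (Fin n)) : ∀ (v v' : Fin n → Valuation m), (∀ k, v k ∈ V) → (∀ k, v' k ∈ V) →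
      (∀ k, k ∉ G → v k = v' k) → ∀ E : Set (Allocation n m),
      (∀ ω ω' : Allocation n m, (∀ k, k ∉ G → ω k = ω' k) → ω ∈ E → ω' ∈ E) →
      Pr (M v) E ≤ Real.exp (ε * G.card) * Pr (M v') E := by
  induction G using Finset.induction_on with
  | empty =>
    intro v v' _ _ h E _
    have : v = v' := funext fun k => h k (by simp)
    simp [this]
  | insert a G ha ih =>
    intro v v' hv hv' h E hE
    have hstep := hM a v (v' a) hv (hv' a)
      {f | ∃ ω ∈ E, ∀ k : {k : Fin n // k ≠ a}, ω k = f k}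
    have hset : {ω : Allocation n m | (fun k : {k : Fin n // k ≠ a} => ω k) ∈
        {f : {k : Fin n // k ≠ a} → Finset (Fin m) |
          ∃ ω ∈ E, ∀ k : {k : Fin n // k ≠ a}, ω k = f k}} = E := by
      ext ω
      simp only [Set.mem_ofPred_eq]
      constructor
      · rintro ⟨ω0, h0, h1⟩
        refine hE ω0 ω (fun k hk => ?_) h0
        have hka : k ≠ a := fun hh => hk (by simp [hh])
        exact h1 ⟨k, hka⟩
      · intro h0
        exact ⟨ω, h0, fun k => rfl⟩
    rw [hset] at hstep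
    have hv'' : ∀ k, Function.update v a (v' a) k ∈ V := by
      intro k
      by_cases hk : k = a
      · subst hk; simpa using hv' k
      · simpa [Function.update_of_ne hk] using hv k
    have hih := ih (Function.update v a (v' a)) v' hv'' hv' (by
      intro k hk
      by_cases hka : k = a
      · subst hka; simp
      · rw [Function.update_of_ne hka]
        exact h k (by simp [hka, hk])) E (by
      intro ω ω' hω h0
      refine hE ω ω' (fun k hk => hω k ?_) h0
      intro hk2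
      exact hk (Finset.mem_insert_of_mem hk2))
    calc Pr (M v) E ≤ Real.exp ε * Pr (M (Function.update v a (v' a))) E := hstep
      _ ≤ Real.exp ε * (Real.exp (ε * G.card) * Pr (M v') E) :=
          mul_le_mul_of_nonneg_left hih (Real.exp_pos _).le
      _ = Real.exp (ε * (insert a G).card) * Pr (M v') E := by
          rw [← mul_assoc, ← Real.exp_add, Finset.card_insert_of_notMem ha]
          congr 2
          push_cast
          ring

/-- The number of subsets of size at most `K`. -/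
theorem ball_bound {α : Type} [Fintype α] [DecidableEq α] (x : ℝ) (hx : 0 < x) (hx1 : x ≤ 1)
    (K : ℕ) :
    ((Finset.univ.filter fun X : Finset α => X.card ≤ K).card : ℝ) * x ^ K ≤
      (1 + x) ^ (Fintype.card α) := by
  have h1 : ∑ X : Finset α, x ^ X.card = (1 + x) ^ (Fintype.card α) := by
    have h2 := Fintype.sum_pow_mul_eq_add_pow α x (1 : ℝ)
    simp only [one_pow, mul_one] at h2
    rw [h2, add_comm]
  rw [← h1]
  calc ((Finset.univ.filter fun X : Finset α => X.card ≤ K).card : ℝ) * x ^ K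
      = ∑ X ∈ Finset.univ.filter (fun X : Finset α => X.card ≤ K), x ^ K := by
        rw [Finset.sum_const, nsmul_eq_mul]
    _ ≤ ∑ X ∈ Finset.univ.filter (fun X : Finset α => X.card ≤ K), x ^ X.card := by
        refine Finset.sum_le_sum fun X hX => ?_
        exact pow_le_pow_of_le_one hx.le hx1 (Finset.mem_filter.mp hX).2
    _ ≤ ∑ X : Finset α, x ^ X.card :=
        Finset.sum_le_sum_of_subset_of_nonneg (Finset.filter_subset _ _)
          (fun X _ _ => by positivity)

/-- Few small subsets of a set with `2 s` elements. -/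
theorem ball_two (s : ℕ) :
    ((Finset.univ.filter fun X : Finset (Fin (2 * s)) => 64 * X.card ≤ s).card : ℝ) ^ 2 ≤
      (5 / 4 : ℝ) ^ s := by
  set K := s / 64 with hK
  have hfilter : (Finset.univ.filter fun X : Finset (Fin (2 * s)) => 64 * X.card ≤ s) =
      Finset.univ.filter fun X : Finset (Fin (2 * s)) => X.card ≤ K := by
    ext X
    simp only [Finset.mem_filter, Finset.mem_univ, true_and, hK]
    omega
  rw [hfilter]
  have h1 := ball_bound (α := Fin (2 * s)) (1 / 64) (by norm_num) (by norm_num) K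
  rw [Fintype.card_fin] at h1
  set B : ℝ := ((Finset.univ.filter fun X : Finset (Fin (2 * s)) => X.card ≤ K).card : ℝ) with hB
  have hB0 : 0 ≤ B := by positivity
  have h2 : B ≤ 64 ^ K * (1 + 1 / 64) ^ (2 * s) := by
    have h64 : (0 : ℝ) < 64 ^ K := by positivity
    have : B * (1 / 64) ^ K * 64 ^ K ≤ (1 + 1 / 64) ^ (2 * s) * 64 ^ K :=
      mul_le_mul_of_nonneg_right h1 h64.le
    have h3 : B * (1 / 64) ^ K * 64 ^ K = B := by
      rw [mul_assoc, ← mul_pow]; norm_num
    rw [h3] at this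
    linarith
  have h3 : ((64 : ℝ) ^ K) ^ 2 ≤ (57 / 50) ^ s := by
    have h4 : ((64 : ℝ) ^ 2) ≤ (57 / 50) ^ 64 := by norm_num
    calc ((64 : ℝ) ^ K) ^ 2 = ((64 : ℝ) ^ 2) ^ K := by rw [← pow_mul, ← pow_mul, mul_comm]
      _ ≤ ((57 / 50 : ℝ) ^ 64) ^ K := pow_le_pow_left₀ (by norm_num) h4 K
      _ = (57 / 50 : ℝ) ^ (64 * K) := by rw [← pow_mul]
      _ ≤ (57 / 50 : ℝ) ^ s := pow_le_pow_right₀ (by norm_num) (by omega)
  calc B ^ 2 ≤ (64 ^ K * (1 + 1 / 64) ^ (2 * s)) ^ 2 := pow_le_pow_left₀ hB0 h2 2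
    _ = (64 ^ K) ^ 2 * (((1 + 1 / 64 : ℝ)) ^ 4) ^ s := by
        rw [mul_pow, ← pow_mul (1 + 1 / 64 : ℝ), ← pow_mul (1 + 1 / 64 : ℝ)]
        congr 2
        ring
    _ ≤ (57 / 50) ^ s * (((1 + 1 / 64 : ℝ)) ^ 4) ^ s :=
        mul_le_mul_of_nonneg_right h3 (by positivity)
    _ = (57 / 50 * (1 + 1 / 64 : ℝ) ^ 4) ^ s := by rw [mul_pow]
    _ ≤ (5 / 4 : ℝ) ^ s := pow_le_pow_left₀ (by norm_num) (by norm_num) s

/-- Subsets of size `s` nearly contained in a fixed set of size at most `s` are few. -/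
theorem near_count (s : ℕ) (o : Finset (Fin (2 * s))) (ho : o.card ≤ s) :
    ((Finset.univ.filter fun S : Finset (Fin (2 * s)) =>
      S.card = s ∧ 64 * (S \ o).card ≤ s).card : ℝ) ≤ (5 / 4 : ℝ) ^ s := by
  refine le_trans ?_ (ball_two s)
  set B := Finset.univ.filter fun X : Finset (Fin (2 * s)) => 64 * X.card ≤ s with hB
  have : (Finset.univ.filter fun S : Finset (Fin (2 * s)) =>
      S.card = s ∧ 64 * (S \ o).card ≤ s).card ≤ (B ×ˢ B).card := by
    refine Finset.card_le_card_of_injOn (fun S => (S \ o, o \ S)) ?_ ?_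
    · intro S hS
      simp only [Finset.coe_filter, Finset.mem_univ, true_and, Set.mem_ofPred_eq] at hS
      simp only [Finset.coe_product, Set.mem_prod, Finset.mem_coe, hB, Finset.mem_filter,
        Finset.mem_univ, true_and]
      refine ⟨hS.2, ?_⟩
      have h1 := Finset.card_sdiff_add_card_inter S o
      have h2 := Finset.card_sdiff_add_card_inter o S
      rw [Finset.inter_comm] at h2
      omega
    · intro S _ T _ hST
      simp only [Prod.mk.injEq] at hST
      ext a
      have h1 := Finset.ext_iff.mp hST.1 a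
      have h2 := Finset.ext_iff.mp hST.2 a
      simp only [Finset.mem_sdiff] at h1 h2
      tauto
  rw [Finset.card_product] at this
  have h2 : ((Finset.univ.filter fun S : Finset (Fin (2 * s)) =>
      S.card = s ∧ 64 * (S \ o).card ≤ s).card : ℝ) ≤ ((B.card * B.card : ℕ) : ℝ) := by
    exact_mod_cast this
  rw [pow_two]
  push_cast at h2
  exact h2

theorem card_subsets (s : ℕ) :
    (Finset.univ.filter fun S : Finset (Fin (2 * s)) => S.card = s).card = Nat.centralBinom s := by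
  rw [← Finset.powerset_univ, ← Finset.powersetCard_eq_filter, Finset.card_powersetCard]
  simp [Nat.centralBinom]

theorem four_pow_le (s : ℕ) (hs : 0 < s) : (4 : ℝ) ^ s ≤ 2 * s * Nat.centralBinom s := by
  have := Nat.four_pow_le_two_mul_self_mul_centralBinom s hs
  exact_mod_cast this

/-- For `ε < 1` the ratio of the two counts is eventually much smaller than `exp (-ε s)`. -/
theorem eventually_small (ε δ : ℝ) (hε : ε < 1) (hδ : 0 < δ) :
    ∃ s₀ : ℕ, 0 < s₀ ∧ ∀ s : ℕ, s₀ ≤ s →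
      Real.exp (ε * s) * (5 / 4 : ℝ) ^ s ≤ δ * Nat.centralBinom s := by
  have h1 : Filter.Tendsto (fun n : ℕ => (n : ℝ) * (9 / 10 : ℝ) ^ n) Filter.atTop (nhds 0) :=
    tendsto_self_mul_const_pow_of_lt_one (by norm_num) (by norm_num)
  have h2 : ∀ᶠ n : ℕ in Filter.atTop, (n : ℝ) * (9 / 10 : ℝ) ^ n < δ / 2 :=
    h1.eventually (gt_mem_nhds (by positivity))
  obtain ⟨N, hN⟩ := Filter.eventually_atTop.mp h2
  refine ⟨N + 1, Nat.succ_pos _, fun s hs => ?_⟩
  have hs0 : 0 < s := by omega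
  have h3 := hN s (by omega)
  have h4 : Real.exp (ε * s) ≤ (2.7182818286 : ℝ) ^ s := by
    calc Real.exp (ε * s) ≤ Real.exp ((s : ℝ) * 1) := by
          apply Real.exp_le_exp.mpr
          have : (0 : ℝ) ≤ s := by positivity
          nlinarith
      _ = (Real.exp 1) ^ s := by rw [Real.exp_nat_mul]
      _ ≤ (2.7182818286 : ℝ) ^ s :=
          pow_le_pow_left₀ (Real.exp_pos 1).le Real.exp_one_lt_d9.le s
  have h5 := four_pow_le s hs0
  have hsR : (0 : ℝ) < s := by exact_mod_cast hs0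
  calc Real.exp (ε * s) * (5 / 4 : ℝ) ^ s
      ≤ (2.7182818286 : ℝ) ^ s * (5 / 4 : ℝ) ^ s :=
        mul_le_mul_of_nonneg_right h4 (by positivity)
    _ = (2.7182818286 * (5 / 4) : ℝ) ^ s := by rw [mul_pow]
    _ ≤ ((9 / 10) * 4 : ℝ) ^ s := pow_le_pow_left₀ (by norm_num) (by norm_num) s
    _ = (9 / 10 : ℝ) ^ s * 4 ^ s := by rw [mul_pow]
    _ ≤ (9 / 10 : ℝ) ^ s * (2 * s * Nat.centralBinom s) :=
        mul_le_mul_of_nonneg_left h5 (by positivity)
    _ = 2 * ((s : ℝ) * (9 / 10 : ℝ) ^ s) * Nat.centralBinom s := by ring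
    _ ≤ 2 * (δ / 2) * Nat.centralBinom s := by
        apply mul_le_mul_of_nonneg_right _ (by positivity)
        linarith
    _ = δ * Nat.centralBinom s := by ring

end Pool.Agent.Helper555.JDP
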