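import Mathlib
import Pool.Agent.Helper555.JDPDefs
import Pool.Agent.Helper555.JDPLemmas

set_option autoImplicit false

namespace Pool.Agent.Helper555.JDP

open scoped BigOperators
open Classical

section Classes

variable {m : ℕ}

/-- Additive valuations are gross substitutes. -/
theorem additive_mem_GS (c : Fin m → ℝ) (hc : ∀ j, 0 ≤ c j) (hsum : ∑ j, c j ≤ 1) :
    (fun S : Finset (Fin m) => ∑ j ∈ S, c j) ∈ GrossSubstitutes m := by
  refine ⟨fun S => ⟨Finset.sum_nonneg fun j _ => hc j, le_trans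
    (Finset.sum_le_sum_of_subset_of_nonneg (Finset.subset_univ S) fun j _ _ => hc j) hsum⟩, ?_⟩
  intro p p' hpp S hS
  refine ⟨Finset.univ.filter fun j => p' j < c j ∨ (j ∈ S ∧ p' j = p j), ?_, ?_⟩
  · intro U
    have hSj : ∀ j ∈ S, p j ≤ c j := by
      intro j hj
      have h1 := hS (S.erase j)
      have h2 := Finset.sum_erase_add S c hj
      have h3 := Finset.sum_erase_add S p hj
      simp only at h1
      linarith
    have hU : ∑ j ∈ U, (c j - p' j) = ∑ j, (if j ∈ U then c j - p' j else 0) := by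
      rw [Finset.sum_ite_mem, Finset.univ_inter]
    have hT : ∑ j ∈ Finset.univ.filter (fun j => p' j < c j ∨ (j ∈ S ∧ p' j = p j)),
        (c j - p' j) = ∑ j, (if j ∈ Finset.univ.filter
          (fun j => p' j < c j ∨ (j ∈ S ∧ p' j = p j)) then c j - p' j else 0) := by
      rw [Finset.sum_ite_mem, Finset.univ_inter]
    simp only
    rw [← Finset.sum_sub_distrib, ← Finset.sum_sub_distrib, hU, hT]
    refine Finset.sum_le_sum fun j _ => ?_
    simp only [Finset.mem_filter, Finset.mem_univ, true_and]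
    by_cases hjU : j ∈ U
    · by_cases hj1 : p' j < c j
      · simp [hjU, hj1]
      · by_cases hj2 : j ∈ S ∧ p' j = p j
        · simp [hjU, hj2]
        · simp only [hjU, hj1, hj2, if_true, if_false, or_self]
          linarith [not_lt.mp hj1]
    · by_cases hj1 : p' j < c j
      · simp only [hjU, hj1, if_true, if_false, true_or]
        linarith
      · by_cases hj2 : j ∈ S ∧ p' j = p j
        · simp only [hjU, hj1, hj2, if_true, if_false]
          have := hSj j hj2.1
          rw [← hj2.2] at this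
          simp
          linarith
        · simp [hjU, hj1, hj2]
  · intro j hj hpj
    simp [hj, hpj]

/-- The valuation of an agent who wants item `b` only (if `act`), or nothing. -/
noncomputable def single (b : Fin m) (act : Prop) : Valuation m := fun S => if act ∧ b ∈ S then 1 else 0

theorem single_mem_GS (b : Fin m) (act : Prop) : single b act ∈ GrossSubstitutes m := by
  have h := additive_mem_GS (m := m) (fun j => if act ∧ b = j then 1 else 0)
    (fun j => by split_ifs <;> norm_num) (by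
      by_cases h : act
      · simp [h]
      · simp [h])
  have h2 : (fun S : Finset (Fin m) => ∑ j ∈ S, (if act ∧ b = j then (1 : ℝ) else 0)) =
      single b act := by
    funext S
    unfold single
    by_cases h : act
    · by_cases hb : b ∈ S
      · simp [h, hb]
      · simp [h, hb]
    · simp [h]
  rw [h2] at h
  exact h

theorem single_mem_UD (b : Fin m) (act : Prop) : single b act ∈ UnitDemand m := by
  refine ⟨fun S => ?_, ?_, ?_⟩
  · unfold single; split_ifs <;> norm_num
  · simp [single]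
  · intro S hS
    obtain ⟨j0, hj0⟩ := hS
    by_cases h : act ∧ b ∈ S
    · constructor
      · refine ⟨b, h.2, ?_⟩
        simp [single, h.1, h.2]
      · rintro _ ⟨j, _, rfl⟩
        simp only [single, h, and_self, if_true]
        split_ifs <;> norm_num
    · constructor
      · refine ⟨j0, hj0, ?_⟩
        simp only [single, h, if_false, Finset.mem_singleton]
        rw [if_neg]
        rintro ⟨ha, hb⟩
        exact h ⟨ha, hb ▸ hj0⟩
      · rintro _ ⟨j, hj, rfl⟩
        simp only [single, h, if_false, Finset.mem_singleton]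
        rw [if_neg]
        rintro ⟨ha, hb⟩
        exact h ⟨ha, hb ▸ hj⟩

end Classes

theorem values_finite {n m : ℕ} (sup : Fin m → ℕ) (v : Fin n → Valuation m) :
    {w | ∃ ω : Allocation n m, Feasible sup ω ∧ welfare v ω = w}.Finite := by
  have : {w | ∃ ω : Allocation n m, Feasible sup ω ∧ welfare v ω = w} =
      welfare v '' {ω | Feasible sup ω} := by
    ext w; simp
  rw [this]
  exact Set.Finite.image _ (Set.toFinite _)

theorem le_OPT {n m : ℕ} (sup : Fin m → ℕ) (v : Fin n → Valuation m) (ω : Allocation n m)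
    (h : Feasible sup ω) : welfare v ω ≤ OPT sup v :=
  le_csSup (values_finite sup v).bddAbove ⟨ω, h, rfl⟩

theorem OPT_le {n m : ℕ} (sup : Fin m → ℕ) (v : Fin n → Valuation m) (B : ℝ)
    (h : ∀ ω : Allocation n m, Feasible sup ω → welfare v ω ≤ B) : OPT sup v ≤ B := by
  refine csSup_le ⟨welfare v (fun _ => ∅), fun _ => ∅, ?_, rfl⟩ ?_
  · intro j; simp
  · rintro _ ⟨ω, hω, rfl⟩
    exact h ω hω

theorem Suffices.mono {V : ∀ m : ℕ, Set (Valuation m)} {n m : ℕ} {ε α β : ℝ} {s t : ℕ}
    (h : Suffices V n m ε α β s) (hst : s ≤ t) : Suffices V n m ε α β t := by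
  obtain ⟨M, hM⟩ := h
  exact ⟨M, fun sup hsup => hM sup fun j => le_trans hst (hsup j)⟩

theorem WeaklySuffices.mono {V : ∀ m : ℕ, Set (Valuation m)} {n m : ℕ} {ε α β : ℝ} {s t : ℕ}
    (h : WeaklySuffices V n m ε α β s) (hst : s ≤ t) : WeaklySuffices V n m ε α β t := by
  obtain ⟨M, hM⟩ := h
  exact ⟨M, fun sup hsup => hM sup fun j => le_trans hst (hsup j)⟩

theorem Suffices.weak {V : ∀ m : ℕ, Set (Valuation m)} {n m : ℕ} {ε α β : ℝ} {s : ℕ}
    (h : Suffices V n m ε α β s) : WeaklySuffices V n m ε α β s := by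
  obtain ⟨M, hM⟩ := h
  refine ⟨M, fun sup hsup => ⟨(hM sup hsup).1, fun v hv => ?_⟩⟩
  obtain ⟨h1, h2⟩ := (hM sup hsup).2 v hv
  refine le_trans h2 (le_of_eq ?_)
  rw [Pr_eq, Pr_eq]
  refine Finset.sum_congr rfl fun ω _ => ?_
  by_cases hω : ω ∈ (M sup v).support
  · have := h1 ω hω
    simp [this]
  · have h0 : (M sup v) ω = 0 := by
      by_contra hne
      exact hω ((PMF.mem_support_iff _ _).mpr hne)
    simp [h0]

/-- With supply `n` every agent can be given her favourite bundle. -/
theorem suffices_n (V : ∀ m : ℕ, Set (Valuation m)) (n m : ℕ) (ε α β : ℝ) (hε : 0 ≤ ε)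
    (hα : 0 ≤ α) (hβ : 0 ≤ β) : Suffices V n m ε α β n := by
  have hbest : ∀ v : Valuation m, ∃ S, ∀ T, v T ≤ v S := fun v => Finite.exists_max v
  choose best hb using hbest
  have hPr : ∀ (a : Allocation n m) (E : Set (Allocation n m)),
      Pr (PMF.pure a) E = if a ∈ E then 1 else 0 := by
    intro a E
    unfold Pr
    rw [PMF.toOuterMeasure_pure_apply]
    split_ifs <;> simp
  refine ⟨fun _ v => PMF.pure fun i => best (v i), fun sup hsup => ⟨?_, fun v _ => ⟨?_, ?_⟩⟩⟩
  · intro i v w _ _ S
    rw [hPr, hPr]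
    have : (fun k : {k : Fin n // k ≠ i} => best (Function.update v i w k)) =
        (fun k : {k : Fin n // k ≠ i} => best (v k)) := by
      funext k
      rw [Function.update_of_ne k.2]
    simp only [Set.mem_ofPred_eq, this]
    split_ifs
    · have := Real.one_le_exp hε
      linarith
    · simp
  · intro ω _ j
    refine le_trans (Finset.card_le_univ _) ?_
    rw [Fintype.card_fin]
    exact hsup j
  · rw [hPr, if_pos]
    · linarith
    · simp only [Set.mem_ofPred_eq]
      have h1 : OPT sup v ≤ welfare v fun i => best (v i) :=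
        OPT_le sup v _ fun ω _ => Finset.sum_le_sum fun i _ => hb (v i) (ω i)
      have h2 : 0 ≤ α * n := by positivity
      linarith

theorem lt_sStarWeak {V : ∀ m : ℕ, Set (Valuation m)} {n m : ℕ} {ε α β : ℝ} (hε : 0 ≤ ε)
    (hα : 0 ≤ α) (hβ : 0 ≤ β) {s : ℕ} (h : ¬ WeaklySuffices V n m ε α β s) :
    s < sStarWeak V n m ε α β := by
  by_contra hlt
  have hmem : WeaklySuffices V n m ε α β (sStarWeak V n m ε α β) :=
    Nat.sInf_mem (s := {s | WeaklySuffices V n m ε α β s})
      ⟨n, (suffices_n V n m ε α β hε hα hβ).weak⟩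
  exact h (hmem.mono (not_lt.mp hlt))

theorem lt_sStar {V : ∀ m : ℕ, Set (Valuation m)} {n m : ℕ} {ε α β : ℝ} (hε : 0 ≤ ε)
    (hα : 0 ≤ α) (hβ : 0 ≤ β) {s : ℕ} (h : ¬ Suffices V n m ε α β s) :
    s < sStar V n m ε α β := by
  by_contra hlt
  have hmem : Suffices V n m ε α β (sStar V n m ε α β) :=
    Nat.sInf_mem (s := {s | Suffices V n m ε α β s}) ⟨n, suffices_n V n m ε α β hε hα hβ⟩
  exact h (hmem.mono (not_lt.mp hlt))

theorem sStarWeak_le {V : ∀ m : ℕ, Set (Valuation m)} {n m : ℕ} {ε α β : ℝ} (hε : 0 ≤ ε)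
    (hα : 0 ≤ α) (hβ : 0 ≤ β) : sStarWeak V n m ε α β ≤ sStar V n m ε α β := by
  have hmem : Suffices V n m ε α β (sStar V n m ε α β) :=
    Nat.sInf_mem (s := {s | Suffices V n m ε α β s}) ⟨n, suffices_n V n m ε α β hε hα hβ⟩
  exact Nat.sInf_le hmem.weak

theorem sStar_le {V : ∀ m : ℕ, Set (Valuation m)} {n m : ℕ} {ε α β : ℝ} (hε : 0 ≤ ε)
    (hα : 0 ≤ α) (hβ : 0 ≤ β) : sStar V n m ε α β ≤ n :=
  Nat.sInf_le (suffices_n V n m ε α β hε hα hβ)

end Pool.Agent.Helper555.JDP
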